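import Pool.Agent.Run7.h146.Met.I2

/-!
# Piece STAR of the project MP_dd21b1_pr: the survival probabilities do not drop too fast
-/

set_option autoImplicit false

open MeasureTheory Filter Topology ENNReal

namespace Run7.h646.Met

open Run7.h146.Met

/-- subadditivity of the integral over a finite cover, with bounds on each part -/
lemma cover {α ι : Type*} [MeasurableSpace α] (μ : Measure α) (f : α → ℝ≥0∞) (Y : Set α)
    (N A : Set α) (s : Finset ι) (E : ι → Set α) (cA : ℝ≥0∞) (c : ι → ℝ≥0∞)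
    (hN : μ N = 0) (hcov : ∀ y ∈ Y, y ∉ N → y ∈ A ∨ ∃ i ∈ s, y ∈ E i)
    (hA : ∀ y ∈ Y, y ∉ N → y ∈ A → f y ≤ cA) (hE : ∀ i ∈ s, ∀ y ∈ Y, y ∉ N → y ∈ E i → f y ≤ c i) :
    ∫⁻ y in Y, f y ∂μ ≤ cA * μ A + ∑ i ∈ s, c i * μ (E i) := by
  classical
  have h1 : ∫⁻ y in Y, f y ∂μ ≤
      ∫⁻ y in (N ∪ ((A ∩ (Y \ N)) ∪ ⋃ i ∈ s, (E i ∩ (Y \ N)))), f y ∂μ := by
    apply lintegral_mono_set
    intro y hy
    by_cases h : y ∈ N
    · exact Or.inl h
    · right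
      rcases hcov y hy h with h' | ⟨i, hi, h'⟩
      · exact Or.inl ⟨h', hy, h⟩
      · right
        simp only [Set.mem_iUnion]
        exact ⟨i, hi, h', hy, h⟩
  have h2 : ∀ (E : ι → Set α) (s : Finset ι), ∫⁻ y in (⋃ i ∈ s, E i), f y ∂μ ≤
      ∑ i ∈ s, ∫⁻ y in E i, f y ∂μ := by
    intro E s
    induction s using Finset.induction_on with
    | empty => simp
    | insert a s ha ih =>
      rw [Finset.set_biUnion_insert, Finset.sum_insert ha]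
      exact (lintegral_union_le _ _ _).trans (by gcongr)
  have h3 : ∫⁻ y in N, f y ∂μ = 0 := by
    rw [Measure.restrict_eq_zero.mpr hN]; simp
  have h4 : ∫⁻ y in A ∩ (Y \ N), f y ∂μ ≤ cA * μ A := by
    calc _ ≤ ∫⁻ _ in A ∩ (Y \ N), cA ∂μ :=
          setLIntegral_mono measurable_const fun y hy => hA y hy.2.1 hy.2.2 hy.1
      _ = cA * μ (A ∩ (Y \ N)) := by rw [setLIntegral_const]
      _ ≤ _ := by gcongr; exact Set.inter_subset_left
  have h5 : ∀ i ∈ s, ∫⁻ y in E i ∩ (Y \ N), f y ∂μ ≤ c i * μ (E i) := by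
    intro i hi
    calc _ ≤ ∫⁻ _ in E i ∩ (Y \ N), c i ∂μ :=
          setLIntegral_mono measurable_const fun y hy => hE i hi y hy.2.1 hy.2.2 hy.1
      _ = c i * μ (E i ∩ (Y \ N)) := by rw [setLIntegral_const]
      _ ≤ _ := by gcongr; exact Set.inter_subset_left
  calc _ ≤ _ := h1
    _ ≤ ∫⁻ y in N, f y ∂μ + ∫⁻ y in ((A ∩ (Y \ N)) ∪ ⋃ i ∈ s, (E i ∩ (Y \ N))), f y ∂μ :=
        lintegral_union_le _ _ _
    _ ≤ 0 + (∫⁻ y in (A ∩ (Y \ N)), f y ∂μ + ∫⁻ y in ⋃ i ∈ s, (E i ∩ (Y \ N)), f y ∂μ) := by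
        rw [h3]; gcongr; exact lintegral_union_le _ _ _
    _ ≤ 0 + (cA * μ A + ∑ i ∈ s, c i * μ (E i)) := by
        gcongr
        exact (h2 _ _).trans (Finset.sum_le_sum h5)
    _ = _ := by rw [zero_add]

/-- a contact after time `T` means a large initial distance -/
lemma far (hCT : S_CT) {d : ℕ} {ε : ℝ} (hε : 0 < ε) (z y : X d) (T T' : ℝ) (hT : 0 ≤ T)
    (h1 : ENNReal.ofReal T < ct ε z y) (h2 : ct ε z y ≤ ENNReal.ofReal T') :
    T * ‖y.2 - z.2‖ ≤ ‖z.1 - y.1‖ + 2 * ε := by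
  obtain ⟨s, hs0, hs, hs1, -⟩ :=
    (hCT d ε hε).2.2.1 z y (ne_top_of_le_ne_top ENNReal.ofReal_ne_top h2)
  have hTs : T < s := by
    rw [hs] at h1
    exact (ENNReal.ofReal_lt_ofReal_iff_of_nonneg hT).mp h1
  have e : s • (z.2 - y.2) = (pos z s - pos y s) - (z.1 - y.1) := by
    simp only [pos, smul_sub]; abel
  have h3 : s * ‖z.2 - y.2‖ ≤ 2 * ε + ‖z.1 - y.1‖ := by
    have h4 : s * ‖z.2 - y.2‖ = ‖s • (z.2 - y.2)‖ := by
      rw [norm_smul, Real.norm_of_nonneg hs0]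
    rw [h4, e]
    exact (norm_sub_le _ _).trans (by linarith)
  rw [norm_sub_rev y.2 z.2]
  nlinarith [norm_nonneg (z.2 - y.2)]

lemma mB_le {d : ℕ} (B : Set (V d)) [SFinite (sig d)] :
    mB B ≤ (volume : Measure (V d)).prod (sig d) := by
  have h : mB B = ((volume : Measure (V d)).prod (sig d)).restrict (B ×ˢ Set.univ) := by
    rw [mB, ← Measure.prod_restrict, Measure.restrict_univ]
  rw [h]
  exact Measure.restrict_le_self

/-- the exponential beats powers -/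
lemma exp_bd (i : ℕ) : Real.exp (-((2 : ℝ) ^ i / 4)) ^ 2 ≤ 3840 * (1 / 32 : ℝ) ^ i := by
  have h0 : (0 : ℝ) ≤ 2 ^ i / 2 := by positivity
  have h1 := Real.pow_div_factorial_le_exp ((2 : ℝ) ^ i / 2) h0 5
  have h2 : Real.exp (-((2 : ℝ) ^ i / 4)) ^ 2 = (Real.exp ((2 : ℝ) ^ i / 2))⁻¹ := by
    rw [← Real.exp_neg, ← Real.exp_nat_mul]
    congr 1
    push_cast
    ring
  rw [h2]
  have h3 : (1 / 32 : ℝ) ^ i = (((2 : ℝ) ^ i) ^ 5)⁻¹ := by
    rw [← pow_mul, mul_comm i 5, pow_mul, ← inv_pow]; norm_num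
  rw [h3]
  have h4 : (0 : ℝ) < ((2 : ℝ) ^ i) ^ 5 := by positivity
  have h5 : ((2 : ℝ) ^ i) ^ 5 / 3840 ≤ Real.exp ((2 : ℝ) ^ i / 2) := by
    refine le_trans (le_of_eq ?_) h1
    simp only [Nat.factorial]
    push_cast
    ring
  calc (Real.exp ((2 : ℝ) ^ i / 2))⁻¹ ≤ (((2 : ℝ) ^ i) ^ 5 / 3840)⁻¹ :=
        inv_anti₀ (by positivity) h5
    _ = _ := by rw [inv_div]; ring

lemma sum_bound (P : ℕ → ℝ) (C Cm : ℝ) (hCm : 0 ≤ Cm) (a b k j : ℕ)
    (hk : a + b + 1 ≤ k) (hj : a + b + 1 ≤ j / 2) :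
    ∑ i ∈ Finset.Icc (j / 2 - a - 1) j,
        (P (i - b) + C * Real.exp (-((2 : ℝ) ^ i / 4))) ^ 2 * (Cm * (4 * 4 ^ i / 2 ^ j)) ≤
      8 * Cm * (4 ^ b + C ^ 2 * 7680 * 2 ^ (2 * a + 3)) * (1 / 2) ^ j * HH P k j := by
  have hterm : ∀ i ∈ Finset.Icc (j / 2 - a - 1) j,
      (P (i - b) + C * Real.exp (-((2 : ℝ) ^ i / 4))) ^ 2 * (Cm * (4 * 4 ^ i / 2 ^ j)) ≤
        8 * Cm * (1 / 2) ^ j * (4 ^ b * ((2 : ℝ) ^ (i - b) * P (i - b)) ^ 2 +
          C ^ 2 * 3840 * (1 / 8 : ℝ) ^ i) := by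
    intro i hi
    rw [Finset.mem_Icc] at hi
    have hbi : b ≤ i := by omega
    have h1 := exp_bd i
    set e := Real.exp (-((2 : ℝ) ^ i / 4)) with he
    have h2 : (P (i - b) + C * e) ^ 2 ≤ 2 * P (i - b) ^ 2 + 2 * C ^ 2 * e ^ 2 := by
      nlinarith [sq_nonneg (P (i - b) - C * e)]
    have h3 : (P (i - b) + C * e) ^ 2 ≤ 2 * P (i - b) ^ 2 + 2 * C ^ 2 * (3840 * (1 / 32 : ℝ) ^ i) :=
      h2.trans (by gcongr)
    have h4 : (4 : ℝ) ^ b * ((2 : ℝ) ^ (i - b) * P (i - b)) ^ 2 = 4 ^ i * P (i - b) ^ 2 := by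
      have : (4 : ℝ) ^ i = 4 ^ b * ((2 : ℝ) ^ (i - b)) ^ 2 := by
        rw [← pow_mul, mul_comm (i - b) 2, pow_mul]
        norm_num
        rw [← pow_add]
        congr 1
        omega
      rw [this]; ring
    have h5 : (1 / 32 : ℝ) ^ i * 4 ^ i = (1 / 8 : ℝ) ^ i := by
      rw [← mul_pow]; norm_num
    have h6 : (1 / 2 : ℝ) ^ j = 1 / 2 ^ j := by rw [one_div_pow]
    calc (P (i - b) + C * e) ^ 2 * (Cm * (4 * 4 ^ i / 2 ^ j))
        ≤ (2 * P (i - b) ^ 2 + 2 * C ^ 2 * (3840 * (1 / 32 : ℝ) ^ i)) *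
            (Cm * (4 * 4 ^ i / 2 ^ j)) := by gcongr
      _ = 8 * Cm * (1 / 2) ^ j * (4 ^ i * P (i - b) ^ 2 +
            C ^ 2 * 3840 * ((1 / 32 : ℝ) ^ i * 4 ^ i)) := by rw [h6]; ring
      _ = _ := by rw [h4, h5]
  refine (Finset.sum_le_sum hterm).trans ?_
  rw [← Finset.mul_sum, Finset.sum_add_distrib, ← Finset.mul_sum, ← Finset.mul_sum]
  have hS1 : ∑ i ∈ Finset.Icc (j / 2 - a - 1) j, ((2 : ℝ) ^ (i - b) * P (i - b)) ^ 2 ≤
      ∑ i ∈ Finset.Icc (j / 2 - k) j, ((2 : ℝ) ^ i * P i) ^ 2 := by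
    have hinj : Set.InjOn (fun i => i - b) (Finset.Icc (j / 2 - a - 1) j : Set ℕ) := by
      intro x hx y hy hxy
      simp only [Finset.coe_Icc, Set.mem_Icc] at hx hy hxy
      omega
    have e1 : ∑ i ∈ Finset.Icc (j / 2 - a - 1) j, ((2 : ℝ) ^ (i - b) * P (i - b)) ^ 2 =
        ∑ i ∈ (Finset.Icc (j / 2 - a - 1) j).image (fun i => i - b), ((2 : ℝ) ^ i * P i) ^ 2 := by
      rw [Finset.sum_image hinj]
    rw [e1]
    apply Finset.sum_le_sum_of_subset_of_nonneg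
    · intro x hx
      rw [Finset.mem_image] at hx
      obtain ⟨i, hi, rfl⟩ := hx
      rw [Finset.mem_Icc] at hi ⊢
      omega
    · intro i _ _
      positivity
  have hS2 : ∑ i ∈ Finset.Icc (j / 2 - a - 1) j, (1 / 8 : ℝ) ^ i ≤ 2 * (1 / 4 : ℝ) ^ (j / 2 - a - 1) := by
    calc ∑ i ∈ Finset.Icc (j / 2 - a - 1) j, (1 / 8 : ℝ) ^ i
        ≤ ∑ i ∈ Finset.Icc (j / 2 - a - 1) j, (1 / 4 : ℝ) ^ (j / 2 - a - 1) * (1 / 2 : ℝ) ^ i := by
          apply Finset.sum_le_sum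
          intro i hi
          rw [Finset.mem_Icc] at hi
          have : (1 / 8 : ℝ) ^ i = (1 / 4 : ℝ) ^ i * (1 / 2 : ℝ) ^ i := by
            rw [← mul_pow]; norm_num
          rw [this]
          gcongr ?_ * _
          exact pow_le_pow_of_le_one (by norm_num) (by norm_num) hi.1
      _ = (1 / 4 : ℝ) ^ (j / 2 - a - 1) * ∑ i ∈ Finset.Icc (j / 2 - a - 1) j, (1 / 2 : ℝ) ^ i := by
          rw [Finset.mul_sum]
      _ ≤ (1 / 4 : ℝ) ^ (j / 2 - a - 1) * ∑ i ∈ Finset.range (j + 1), (1 / 2 : ℝ) ^ i := by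
          gcongr
          intro i hi
          rw [Finset.mem_Icc] at hi
          rw [Finset.mem_range]
          omega
      _ ≤ (1 / 4 : ℝ) ^ (j / 2 - a - 1) * 2 := by
          gcongr
          exact sum_geometric_two_le _
      _ = _ := by ring
  have hS3 : (1 / 4 : ℝ) ^ (j / 2 - a - 1) ≤ 2 ^ (2 * a + 3) * (1 / 2) ^ j := by
    have h1 : (1 / 4 : ℝ) ^ (j / 2 - a - 1) = (1 / 2 : ℝ) ^ (2 * (j / 2 - a - 1)) := by
      rw [pow_mul]; norm_num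
    have h2 : (2 : ℝ) ^ (2 * a + 3) * (1 / 2 : ℝ) ^ (2 * a + 3) = 1 := by
      rw [← mul_pow]; norm_num
    have h3 : (1 / 2 : ℝ) ^ (2 * (j / 2 - a - 1)) =
        2 ^ (2 * a + 3) * (1 / 2 : ℝ) ^ (2 * (j / 2 - a - 1) + (2 * a + 3)) := by
      rw [pow_add (1 / 2 : ℝ) (2 * (j / 2 - a - 1)) (2 * a + 3)]
      linear_combination (-(1 / 2 : ℝ) ^ (2 * (j / 2 - a - 1))) * h2
    rw [h1, h3]
    gcongr ?_ * ?_
    exact pow_le_pow_of_le_one (by norm_num) (by norm_num) (by omega)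
  have hS0 : 0 ≤ ∑ i ∈ Finset.Icc (j / 2 - k) j, ((2 : ℝ) ^ i * P i) ^ 2 :=
    Finset.sum_nonneg fun i _ => by positivity
  have hHH : HH P k j = (∑ i ∈ Finset.Icc (j / 2 - k) j, ((2 : ℝ) ^ i * P i) ^ 2) + (1 / 2) ^ j := rfl
  rw [hHH]
  set S := ∑ i ∈ Finset.Icc (j / 2 - k) j, ((2 : ℝ) ^ i * P i) ^ 2 with hS
  have hu : (0 : ℝ) < (1 / 2) ^ j := by positivity
  have h7 : 4 ^ b * ∑ i ∈ Finset.Icc (j / 2 - a - 1) j, ((2 : ℝ) ^ (i - b) * P (i - b)) ^ 2 +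
      C ^ 2 * 3840 * ∑ i ∈ Finset.Icc (j / 2 - a - 1) j, (1 / 8 : ℝ) ^ i ≤
      (4 ^ b + C ^ 2 * 7680 * 2 ^ (2 * a + 3)) * (S + (1 / 2) ^ j) := by
    calc _ ≤ 4 ^ b * S + C ^ 2 * 3840 * (2 * (2 ^ (2 * a + 3) * (1 / 2) ^ j)) := by
          gcongr
          exact hS2.trans (by gcongr)
      _ ≤ _ := by
          have h8 : 0 ≤ (4 : ℝ) ^ b * (1 / 2) ^ j := by positivity
          have h9 : 0 ≤ C ^ 2 * 7680 * 2 ^ (2 * a + 3) * S := by positivity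
          nlinarith
  calc _ ≤ 8 * Cm * (1 / 2) ^ j * ((4 ^ b + C ^ 2 * 7680 * 2 ^ (2 * a + 3)) * (S + (1 / 2) ^ j)) := by
        gcongr
    _ = _ := by ring

lemma step (hPO1 : S_PO1) (hMB : S_MB) (hCT : S_CT) (hSTA : S_STA) {d : ℕ} {ε κ C r₀ Cm : ℝ}
    (hd : 2 ≤ d) (hε : 0 < ε) (hcore : Core d ε κ C r₀) (hCm1 : 1 ≤ Cm)
    (hCm : ∀ z : X d, ‖z.2‖ = 1 → ∀ δ a b : ℝ, 0 < δ → δ ≤ 2 → 0 ≤ a → a ≤ b →
      ((volume : Measure (V d)).prod (sig d)) {y | ‖y.2 - z.2‖ ≤ δ ∧ ENNReal.ofReal a < ct ε z y ∧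
        ct ε z y ≤ ENNReal.ofReal b} ≤ ENNReal.ofReal (Cm * (b - a) * δ ^ 2))
    (b i₀ j : ℕ) (hij : i₀ ≤ j) (hb : b ≤ i₀) (hb2 : 4 ≤ κ * 2 ^ b)
    (h4 : 4 * r₀ ≤ 2 ^ i₀) (h5 : 4 * ε ≤ 2 ^ i₀)
    (Q : ℝ) (hQ : r₀ ≤ Q) (hQ2 : 2 * 2 ^ j ≤ κ * Q) (hQ3 : 5 * 2 ^ j + 2 * ε ≤ Q) :
    pp d ε (2 ^ j) - C * Real.exp (-Q) ≤ pp d ε (2 ^ (j + 1)) + C * Real.exp (-Q) +
      ((pp d ε (2 ^ j) + C * Real.exp (-Q)) * (Cm * (4 ^ i₀ / 2 ^ j)) +
      ∑ i ∈ Finset.Icc i₀ j, (pp d ε (2 ^ (i - b)) + C * Real.exp (-((2 : ℝ) ^ i / 4))) ^ 2 *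
        (Cm * (4 * 4 ^ i / 2 ^ j))) := by
  classical
  have hd0 : 0 < d := by omega
  obtain ⟨hsig, hsn, -, hmB⟩ := hMB d hd0
  obtain ⟨hκ0, hκ1, hC1, hr₀, -, -⟩ := hcore.loc
  have hC0 : 0 ≤ C := by linarith
  have hCm0 : 0 ≤ Cm := by linarith
  set T : ℝ := 2 ^ j with hTdef
  have hT0 : 0 < T := by positivity
  have h2T : (2 : ℝ) ^ (j + 1) = 2 * T := by rw [pow_succ]; ring
  rw [h2T]
  have hQ0 : 0 < Q := by linarith
  set B : Set (V d) := Metric.ball (0 : V d) Q with hBdef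
  have hBm : MeasurableSet B := Metric.isOpen_ball.measurableSet
  have hBf : volume B ≠ ⊤ := measure_ball_lt_top.ne
  obtain ⟨hfin, hns, -, -⟩ := hmB B hBm hBf
  -- a unit vector
  set v : V d := EuclideanSpace.single (⟨0, hd0⟩ : Fin d) (1 : ℝ) with hv
  have hv1 : ‖v‖ = 1 := by rw [hv]; simp
  set z : X d := ((0 : V d), v) with hz
  have hz2 : ‖z.2‖ = 1 := hv1
  -- the trivial event has probability one
  have hPQ1 : PQ d 0 Set.univ = 1 := by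
    obtain ⟨hf, -, -, -⟩ := hmB (Metric.ball (0 : V d) 0) Metric.isOpen_ball.measurableSet
      measure_ball_lt_top.ne
    have hpr : IsProbabilityMeasure (poi (mB (Metric.ball (0 : V d) 0))) := (hPO1 d _).1
    exact hpr.measure_univ
  have hball0 : Metric.ball (0 : V d) 0 = ∅ := Metric.ball_zero
  have huniv : ∀ p : Finset (X d) → Prop, {F | res (Metric.ball (0 : V d) 0) F ∈
      (Set.univ : Set (Finset (X d))) ∧ p F} = {F | p F} := by
    intro p; ext F; simp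
  have one := fun t ht0 ht => hcore.one Q t 0 z B Set.univ hQ ht0 ht hz2 hBm hBf MeasurableSet.univ
    (by rw [hBdef]) (by rw [hball0]; exact Set.empty_subset _) (by rw [hball0]; exact disjoint_bot_right)
  simp only [hPQ1, one_mul, huniv] at one
  have o1 := one T hT0.le (by linarith)
  have o2 := one (2 * T) (by linarith) hQ2
  -- the pieces
  set N : Set (X d) := {y | ‖y.2‖ ≠ 1} ∪ {z} with hN
  have hN0 : mB B N = 0 := by
    rw [hN]
    apply measure_union_null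
    · have hle : mB B {y : X d | ‖y.2‖ ≠ 1} ≤ ((volume : Measure (V d)).prod (sig d))
          ((Set.univ : Set (V d)) ×ˢ {v : V d | ‖v‖ ≠ 1}) := by
        refine le_trans (le_of_eq ?_) (mB_le B _)
        congr 1
        ext y; simp
      rw [Measure.prod_prod, hsn, mul_zero] at hle
      exact le_antisymm hle zero_le
    · exact measure_singleton z
  set Y : Set (X d) := {y | ENNReal.ofReal T < ct ε z y ∧ ct ε z y ≤ ENNReal.ofReal (2 * T)} with hY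
  set E : ℕ → Set (X d) := fun i => {y | ‖y.2 - z.2‖ ≤ 2 ^ (i + 1) / T ∧ 2 ^ i / T < ‖y.2 - z.2‖ ∧
    y ∈ Y} with hE
  set A : Set (X d) := {y | ‖y.2 - z.2‖ ≤ 2 ^ i₀ / T ∧ y ∈ Y} with hA
  have hmes : ∀ (δ : ℝ) (G : Set (X d)), 0 < δ → δ ≤ 2 → (∀ y ∈ G, ‖y.2 - z.2‖ ≤ δ ∧ y ∈ Y) →
      mB B G ≤ ENNReal.ofReal (Cm * T * δ ^ 2) := by
    intro δ G hδ hδ2 hG
    have h := hCm z hz2 δ T (2 * T) hδ hδ2 hT0.le (by linarith)
    have e : Cm * (2 * T - T) * δ ^ 2 = Cm * T * δ ^ 2 := by ring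
    rw [e] at h
    refine (measure_mono ?_).trans ((mB_le B _).trans h)
    intro y hy
    exact hG y hy
  have hcover := cover (mB B) (fun y => poi (mB B) {F | al2 ε z T y T F}) Y N A (Finset.Icc i₀ j) E
    (ENNReal.ofReal (pp d ε T + C * Real.exp (-Q)))
    (fun i => ENNReal.ofReal (pp d ε (2 ^ (i - b)) + C * Real.exp (-((2 : ℝ) ^ i / 4))) *
      ENNReal.ofReal (pp d ε (2 ^ (i - b)) + C * Real.exp (-((2 : ℝ) ^ i / 4)))) hN0 ?_ ?_ ?_
  rotate_left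
  · -- the cover
    intro y hy hyN
    have hy1 : ‖y.2‖ = 1 := by
      by_contra h; exact hyN (Or.inl h)
    by_cases h : ‖y.2 - z.2‖ ≤ 2 ^ i₀ / T
    · exact Or.inl ⟨h, hy⟩
    · right
      push Not at h
      -- the largest `i ≤ j` with `2 ^ i / T < δ`
      have hex : ∃ i, i₀ ≤ i ∧ i ≤ j ∧ 2 ^ i / T < ‖y.2 - z.2‖ ∧ ‖y.2 - z.2‖ ≤ 2 ^ (i + 1) / T := by
        by_contra hne
        push Not at hne
        have hind : ∀ n, i₀ ≤ n → n ≤ j + 1 → (2 : ℝ) ^ n / T < ‖y.2 - z.2‖ := by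
          intro n hn
          induction n, hn using Nat.le_induction with
          | base => intro _; exact h
          | succ n hn ih =>
            intro hnj
            exact hne n hn (by omega) (ih (by omega))
        have h1 := hind (j + 1) (by omega) le_rfl
        have h2 : ‖y.2 - z.2‖ ≤ 2 := by
          calc _ ≤ ‖y.2‖ + ‖z.2‖ := norm_sub_le _ _
            _ = 2 := by rw [hy1, hz2]; norm_num
        rw [h2T, mul_div_assoc, div_self hT0.ne'] at h1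
        linarith
      obtain ⟨i, hi1, hi2, hi3, hi4⟩ := hex
      exact ⟨i, Finset.mem_Icc.mpr ⟨hi1, hi2⟩, hi4, hi3, hy⟩
  · -- near
    intro y hy hyN hyA
    have hyz : z ≠ y := by
      intro h; exact hyN (Or.inr h.symm)
    have h := hcore.near T T 0 z y B Set.univ hT0.le le_rfl hyz hBm hBf
    simp only [huniv] at h
    exact h.trans o1.1
  · -- far
    intro i hi y hy hyN hyE
    rw [Finset.mem_Icc] at hi
    have hy1 : ‖y.2‖ = 1 := by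
      by_contra h; exact hyN (Or.inl h)
    have hfar := far hCT hε z y T (2 * T) hT0.le hy.1 hy.2
    have hi0 : (2 : ℝ) ^ i₀ ≤ 2 ^ i := pow_le_pow_right₀ (by norm_num) hi.1
    have hij' : (2 : ℝ) ^ i ≤ T := pow_le_pow_right₀ (by norm_num) hi.2
    have h6 : (2 : ℝ) ^ i < T * ‖y.2 - z.2‖ := by
      have := hyE.2.1
      rwa [div_lt_iff₀ hT0, mul_comm] at this
    have h7 : (2 : ℝ) ^ i / 4 + 2 ^ i / 4 ≤ ‖z.1 - y.1‖ := by linarith
    have h8 : ‖z.1 - y.1‖ ≤ 2 * (2 * T) + 2 * ε :=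
      (hCT d ε hε).2.2.2.2.2.1 z y (2 * T) (by linarith) hz2 hy1 hy.2
    have hz0 : z.1 = 0 := rfl
    have hib : (2 : ℝ) ^ (i - b) * 2 ^ b = 2 ^ i := by
      rw [← pow_add]; congr 1; omega
    have hsmall : (2 : ℝ) ^ (i - b) ≤ κ * (2 ^ i / 4) := by
      rw [← hib]
      have : (0 : ℝ) < 2 ^ (i - b) := by positivity
      nlinarith
    have hle : (2 : ℝ) ^ (i - b) ≤ T := pow_le_pow_right₀ (by norm_num) (by omega)
    have htwo := hcore.two (2 ^ i / 4) (2 ^ (i - b)) (2 ^ i / 4) (2 ^ (i - b)) 0 z y B Set.univ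
      (by linarith) (by positivity) hsmall (by linarith) (by positivity) hsmall hz2 hy1 hBm hBf
      MeasurableSet.univ
      (by
        rw [hz0]
        exact Metric.ball_subset_ball (by linarith))
      (by
        intro x hx
        rw [Metric.mem_ball, dist_eq_norm] at hx
        rw [hBdef, Metric.mem_ball, dist_eq_norm, sub_zero]
        have : ‖x‖ ≤ ‖x - y.1‖ + ‖z.1 - y.1‖ := by
          have e : x = (x - y.1) - (z.1 - y.1) := by rw [hz0]; abel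
          calc ‖x‖ = ‖(x - y.1) - (z.1 - y.1)‖ := by rw [← e]
            _ ≤ _ := norm_sub_le _ _
        linarith)
      (by rw [hball0]; exact Set.empty_subset _)
      (by rw [hball0]; exact disjoint_bot_right)
      (by rw [hball0]; exact disjoint_bot_right)
      (Metric.ball_disjoint_ball (by rw [dist_eq_norm]; exact h7))
    simp only [hPQ1, one_mul, huniv] at htwo
    refine (measure_mono ?_).trans htwo
    intro F hF
    have hofle : ENNReal.ofReal (2 ^ (i - b)) ≤ ENNReal.ofReal T := ENNReal.ofReal_le_ofReal hle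
    exact ⟨lt_of_le_of_lt hofle hF.1, lt_of_le_of_lt hofle hF.2⟩
  -- conclusion
  have hsta := hSTA d ε hd0 hε B z T (2 * T) hBm hBf hT0.le (by linarith)
  have hp0 : ∀ t, 0 ≤ pp d ε t := fun t => (hcore.rng t).1
  have hex0 : ∀ x : ℝ, 0 ≤ C * Real.exp x := fun x => mul_nonneg hC0 (Real.exp_pos x).le
  have hEi : ∀ i ∈ Finset.Icc i₀ j, ENNReal.ofReal (pp d ε (2 ^ (i - b)) + C * Real.exp (-((2 : ℝ) ^ i / 4))) *
      ENNReal.ofReal (pp d ε (2 ^ (i - b)) + C * Real.exp (-((2 : ℝ) ^ i / 4))) * mB B (E i) ≤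
      ENNReal.ofReal ((pp d ε (2 ^ (i - b)) + C * Real.exp (-((2 : ℝ) ^ i / 4))) ^ 2 *
        (Cm * (4 * 4 ^ i / T))) := by
    intro i hi
    rw [Finset.mem_Icc] at hi
    have h := hmes (2 ^ (i + 1) / T) (E i) (by positivity)
      (by
        rw [div_le_iff₀ hT0, ← h2T]
        exact pow_le_pow_right₀ (by norm_num) (by omega))
      (fun y hy => ⟨hy.1, hy.2.2⟩)
    have e : Cm * T * (2 ^ (i + 1) / T) ^ 2 = Cm * (4 * 4 ^ i / T) := by
      have : (4 : ℝ) ^ i = 2 ^ i * 2 ^ i := by rw [← mul_pow]; norm_num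
      rw [this, pow_succ]
      field_simp
      ring
    rw [e] at h
    set q := pp d ε (2 ^ (i - b)) + C * Real.exp (-((2 : ℝ) ^ i / 4)) with hq
    have hq0 : 0 ≤ q := add_nonneg (hp0 _) (hex0 _)
    rw [ENNReal.ofReal_mul (by positivity), sq, ENNReal.ofReal_mul hq0]
    gcongr
  have hAm : mB B A ≤ ENNReal.ofReal (Cm * (4 ^ i₀ / T)) := by
    have h := hmes (2 ^ i₀ / T) A (by positivity)
      (by
        rw [div_le_iff₀ hT0, ← h2T]
        exact pow_le_pow_right₀ (by norm_num) (by omega))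
      (fun y hy => ⟨hy.1, hy.2⟩)
    have e : Cm * T * (2 ^ i₀ / T) ^ 2 = Cm * (4 ^ i₀ / T) := by
      have : (4 : ℝ) ^ i₀ = 2 ^ i₀ * 2 ^ i₀ := by rw [← mul_pow]; norm_num
      rw [this]
      field_simp
    rwa [e] at h
  have hpQ0 : 0 ≤ pp d ε T + C * Real.exp (-Q) := add_nonneg (hp0 _) (hex0 _)
  have hnn : ∀ i ∈ Finset.Icc i₀ j, 0 ≤ (pp d ε (2 ^ (i - b)) +
      C * Real.exp (-((2 : ℝ) ^ i / 4))) ^ 2 * (Cm * (4 * 4 ^ i / T)) := fun i _ =>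
    mul_nonneg (sq_nonneg _) (mul_nonneg hCm0 (by positivity))
  have hsum : ∑ i ∈ Finset.Icc i₀ j,
      ENNReal.ofReal (pp d ε (2 ^ (i - b)) + C * Real.exp (-((2 : ℝ) ^ i / 4))) *
      ENNReal.ofReal (pp d ε (2 ^ (i - b)) + C * Real.exp (-((2 : ℝ) ^ i / 4))) * mB B (E i) ≤
      ENNReal.ofReal (∑ i ∈ Finset.Icc i₀ j, (pp d ε (2 ^ (i - b)) +
        C * Real.exp (-((2 : ℝ) ^ i / 4))) ^ 2 * (Cm * (4 * 4 ^ i / T))) := by
    rw [ENNReal.ofReal_sum_of_nonneg hnn]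
    exact Finset.sum_le_sum hEi
  have hS0 := Finset.sum_nonneg hnn
  have hA2 : ENNReal.ofReal (pp d ε T + C * Real.exp (-Q)) * mB B A ≤
      ENNReal.ofReal ((pp d ε T + C * Real.exp (-Q)) * (Cm * (4 ^ i₀ / T))) := by
    rw [ENNReal.ofReal_mul hpQ0]
    exact mul_le_mul' le_rfl hAm
  have hA0 : 0 ≤ (pp d ε T + C * Real.exp (-Q)) * (Cm * (4 ^ i₀ / T)) :=
    mul_nonneg hpQ0 (mul_nonneg hCm0 (by positivity))
  have hpQ1 : 0 ≤ pp d ε (2 * T) + C * Real.exp (-Q) := add_nonneg (hp0 _) (hex0 _)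
  have hchain := o1.2.trans (hsta.trans (add_le_add o2.1 (hcover.trans (add_le_add hA2 hsum))))
  rw [← ENNReal.ofReal_add hA0 hS0, ← ENNReal.ofReal_add hpQ1 (add_nonneg hA0 hS0)] at hchain
  exact (ENNReal.ofReal_le_ofReal_iff (add_nonneg hpQ1 (add_nonneg hA0 hS0))).mp hchain

theorem t_STAR (hPO1 : S_PO1) (hMB : S_MB) (hCT : S_CT) (hCM : S_CM) (hSTA : S_STA) : S_STAR := by
  intro d ε κ C r₀ hd hε hcore
  have hd0 : 0 < d := by omega
  obtain ⟨Cm, hCm1, -, hCm⟩ := hCM d ε hd0 hε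
  replace hCm := hCm hd
  obtain ⟨hκ0, hκ1, hC1, hr₀, -, -⟩ := hcore.loc
  have hC0 : 0 ≤ C := by linarith
  have hCm0 : 0 ≤ Cm := by linarith
  obtain ⟨a, ha⟩ : ∃ a : ℕ, Cm ≤ 4 ^ a := by
    obtain ⟨a, ha⟩ := pow_unbounded_of_one_lt Cm (by norm_num : (1 : ℝ) < 4)
    exact ⟨a, ha.le⟩
  obtain ⟨b, hb⟩ : ∃ b : ℕ, 4 ≤ κ * 2 ^ b := by
    obtain ⟨b, hb⟩ := pow_unbounded_of_one_lt (4 / κ) (by norm_num : (1 : ℝ) < 2)
    refine ⟨b, ?_⟩
    rw [div_lt_iff₀ hκ0] at hb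
    linarith
  obtain ⟨n₀, hn₀⟩ : ∃ n : ℕ, 4 * r₀ + 4 * ε ≤ 2 ^ n := by
    obtain ⟨n, hn⟩ := pow_unbounded_of_one_lt (4 * r₀ + 4 * ε) (by norm_num : (1 : ℝ) < 2)
    exact ⟨n, hn.le⟩
  refine ⟨a + b + 1, fun k hk => ?_⟩
  set K : ℝ := 4 ^ b + C ^ 2 * 7680 * 2 ^ (2 * a + 3) with hK
  have hK0 : 0 ≤ K := by positivity
  set J : ℕ := 2 * (n₀ + b + a + 1) with hJ
  refine ⟨max (4 ^ J) (8 * Cm * K + 6 * C), le_max_of_le_left (one_le_pow₀ (by norm_num)),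
    fun j hj => ?_⟩
  set P : ℕ → ℝ := fun i => pp d ε ((2 : ℝ) ^ i) with hP
  set u : ℝ := (1 / 2 : ℝ) ^ j with hu
  have hu0 : 0 < u := by positivity
  have hH : u ≤ HH P k j := by
    have h0 : 0 ≤ ∑ i ∈ Finset.Icc (j / 2 - k) j, ((2 : ℝ) ^ i * P i) ^ 2 :=
      Finset.sum_nonneg fun i _ => by positivity
    have h1 : HH P k j = (∑ i ∈ Finset.Icc (j / 2 - k) j, ((2 : ℝ) ^ i * P i) ^ 2) + u := rfl
    rw [h1]
    linarith
  set H : ℝ := HH P k j with hHdef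
  have huH0 : 0 < u * H := mul_pos hu0 (lt_of_lt_of_le hu0 hH)
  rcases lt_or_ge j J with hjs | hjl
  · -- small `j`
    have h1 := (hcore.rng ((2 : ℝ) ^ j)).2
    have h2 := (hcore.rng ((2 : ℝ) ^ (j + 1))).1
    have h3 : 1 ≤ (4 : ℝ) ^ J * (u * u) := by
      have e1 : u * u = ((4 : ℝ) ^ j)⁻¹ := by
        rw [hu, ← mul_pow, ← inv_pow]; norm_num
      rw [e1, ← div_eq_mul_inv, le_div_iff₀ (by positivity), one_mul]
      exact pow_le_pow_right₀ (by norm_num) hjs.le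
    have h4 : 1 ≤ max ((4 : ℝ) ^ J) (8 * Cm * K + 6 * C) * u * H := by
      calc (1 : ℝ) ≤ (4 : ℝ) ^ J * (u * u) := h3
        _ ≤ max ((4 : ℝ) ^ J) (8 * Cm * K + 6 * C) * (u * H) := by
            apply mul_le_mul (le_max_left _ _) (mul_le_mul_of_nonneg_left hH hu0.le)
              (mul_nonneg hu0.le hu0.le)
            exact le_trans (by positivity) (le_max_left _ _)
        _ = _ := by ring
    linarith
  · -- large `j`
    set i₀ : ℕ := j / 2 - a - 1 with hi₀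
    have hi₀n : n₀ ≤ i₀ := by omega
    have hbi : b ≤ i₀ := by omega
    have hpow : (2 : ℝ) ^ n₀ ≤ 2 ^ i₀ := pow_le_pow_right₀ (by norm_num) hi₀n
    set Q : ℝ := 2 * 2 ^ j / κ + r₀ + 5 * 2 ^ j + 2 * ε with hQ
    have hTκ : 0 ≤ 2 * (2 : ℝ) ^ j / κ := by positivity
    have hT0 : (0 : ℝ) < 2 ^ j := by positivity
    have hst := step hPO1 hMB hCT hSTA hd hε hcore hCm1 hCm b i₀ j (by omega) hbi hb
      (by linarith) (by linarith) Q (by linarith)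
      (by
        have e : κ * Q = 2 * 2 ^ j + κ * (r₀ + 5 * 2 ^ j + 2 * ε) := by
          rw [hQ]; field_simp; ring
        rw [e]
        have : 0 ≤ κ * (r₀ + 5 * 2 ^ j + 2 * ε) := by positivity
        linarith)
      (by linarith)
    have hsb := sum_bound P C Cm hCm0 a b k j hk (by omega)
    rw [← hK, ← hi₀, ← hu, ← hHdef] at hsb
    have hsb' : ∑ i ∈ Finset.Icc i₀ j, (pp d ε (2 ^ (i - b)) +
        C * Real.exp (-((2 : ℝ) ^ i / 4))) ^ 2 * (Cm * (4 * 4 ^ i / 2 ^ j)) ≤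
        8 * Cm * K * u * H := hsb
    have hexp : Real.exp (-Q) ≤ 2 * (u * u) := by
      have h1 := Real.pow_div_factorial_le_exp ((2 : ℝ) ^ j) hT0.le 2
      have h2 : Real.exp ((2 : ℝ) ^ j) ≤ Real.exp Q := Real.exp_le_exp.mpr (by linarith)
      have h3 : ((2 : ℝ) ^ j) ^ 2 / 2 ≤ Real.exp Q := by
        refine le_trans (le_of_eq ?_) (h1.trans h2)
        norm_num [Nat.factorial]
      have h4 : 2 * (u * u) = (((2 : ℝ) ^ j) ^ 2 / 2)⁻¹ := by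
        rw [inv_div, hu, one_div_pow]
        field_simp
      rw [Real.exp_neg, h4]
      exact inv_anti₀ (by positivity) h3
    have hexp2 : C * Real.exp (-Q) ≤ 2 * C * (u * H) := by
      calc C * Real.exp (-Q) ≤ C * (2 * (u * u)) := mul_le_mul_of_nonneg_left hexp hC0
        _ ≤ C * (2 * (u * H)) := by
            apply mul_le_mul_of_nonneg_left _ hC0
            linarith [mul_le_mul_of_nonneg_left hH hu0.le]
        _ = _ := by ring
    have hw : Cm * (4 ^ i₀ / 2 ^ j) ≤ 1 / 4 := by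
      have h1 : (4 : ℝ) ^ i₀ * 4 ^ (a + 1) ≤ 2 ^ j := by
        rw [← pow_add]
        have h2 : (4 : ℝ) ^ (i₀ + (a + 1)) = 2 ^ (2 * (i₀ + (a + 1))) := by
          rw [pow_mul]; norm_num
        rw [h2]
        exact pow_le_pow_right₀ (by norm_num) (by omega)
      rw [mul_div_assoc', div_le_iff₀ hT0]
      calc Cm * 4 ^ i₀ ≤ 4 ^ a * 4 ^ i₀ := by gcongr
        _ = 1 / 4 * (4 ^ i₀ * 4 ^ (a + 1)) := by rw [pow_succ]; ring
        _ ≤ 1 / 4 * 2 ^ j := by gcongr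
    have hp0 := (hcore.rng ((2 : ℝ) ^ j)).1
    have hce : 0 ≤ C * Real.exp (-Q) := mul_nonneg hC0 (Real.exp_pos _).le
    have hw2 : (pp d ε (2 ^ j) + C * Real.exp (-Q)) * (Cm * (4 ^ i₀ / 2 ^ j)) ≤
        (pp d ε (2 ^ j) + C * Real.exp (-Q)) * (1 / 4) :=
      mul_le_mul_of_nonneg_left hw (add_nonneg hp0 hce)
    have hmax : (8 * Cm * K + 6 * C) * u * H ≤
        max ((4 : ℝ) ^ J) (8 * Cm * K + 6 * C) * u * H := by
      rw [mul_assoc (8 * Cm * K + 6 * C) u H,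
        mul_assoc (max ((4 : ℝ) ^ J) (8 * Cm * K + 6 * C)) u H]
      exact mul_le_mul_of_nonneg_right (le_max_right _ _) huH0.le
    have e2 : (8 * Cm * K + 6 * C) * u * H = 8 * Cm * K * u * H + 6 * (C * (u * H)) := by ring
    have hCuH : 0 ≤ C * (u * H) := mul_nonneg hC0 huH0.le
    linarith

end Run7.h646.Met
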